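import Pool.Agent.Run7.h981.EA.MCov

/-!
# Edwards–Anderson spin glass: the metastate is unique and trivial when `μ(ℤ^d) tanh²β < 1`
-/

set_option autoImplicit false

open MeasureTheory

namespace Pool.Agent.Results.MP_81d17b_pr.WeakUniqueness

open Pool.H47EA Pool.H981EA

/-- Symmetric `±1` couplings, every dimension `d` and every `β ≥ 0`; write `t = tanh β`, and
`c_n` for the number of `n`-step self-avoiding walks on `ℤ^d` from the origin.

(1) In every finite volume `Λ`, with every boundary condition `Ω` that does not look at the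
couplings touching `Λ`, the mean square of the covariance of `σ_x` and `σ_y` is at most
`c_m t^{2m}` with `m = |x - y|_1`.

(2) The same bound holds, in infinite volume, for the covariances in the (pure or mixed) states of
every coupling-covariant metastate `κ`: a law of pairs (couplings, Gibbs state for them) that is
invariant under the flip of any coupling together with the induced change of the state.

(3) If `c_N t^{2N} < 1` for some `N ≥ 1` (that is, if `μ(ℤ^d) tanh²β < 1`, `μ` the connective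
constant), there is a measurable family `π_J` of Gibbs states, invariant under the global spin
flip, such that: the law of `(J, π_J)` is the one and only coupling-covariant metastate; all
boundary conditions that do not look at the couplings touching the volume, along all volumes
`Λ_n ⊇ {-n,…,n}^d`, give in the limit the state `π_J`, almost surely and exponentially fast; the
mean square of `⟨σ_x σ_y⟩_{π_J}` is at most `c_m t^{2m}`.

(4) The hypothesis of (3) holds as soon as `(2d-1) tanh²β < 1`. -/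
theorem result (d : ℕ) (β : ℝ) (hβ : 0 ≤ β) :
    (∀ (Λ : Finset (Site d)) (Ω : Coupling d → Site d → Bool), Measurable Ω → Indep Λ Ω →
      ∀ x y : Site d, y ∈ Λ →
        ∫ J, (gE β J Λ (Ω J) (fun σ => sg (σ x) * sg (σ y)) -
          gE β J Λ (Ω J) (fun σ => sg (σ x)) * gE β J Λ (Ω J) (fun σ => sg (σ y))) ^ 2
            ∂(couplingLaw d) ≤ (cSaw d (dist1 x y) : ℝ) * Real.tanh β ^ (2 * dist1 x y)) ∧
    (∀ κ : Measure (Pair d), IsMetastate β κ → ∀ x y : Site d,
      ∫ q : Pair d, (∫ σ, sg (σ x) * sg (σ y) ∂(q.2 : Measure (Site d → Bool)) -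
        (∫ σ, sg (σ x) ∂(q.2 : Measure (Site d → Bool))) *
          ∫ σ, sg (σ y) ∂(q.2 : Measure (Site d → Bool))) ^ 2 ∂κ ≤
        (cSaw d (dist1 x y) : ℝ) * Real.tanh β ^ (2 * dist1 x y)) ∧
    ((∃ N, 1 ≤ N ∧ (cSaw d N : ℝ) * Real.tanh β ^ (2 * N) < 1) →
      ∃ (p : ℝ) (π : Coupling d → ProbabilityMeasure (Site d → Bool)), 0 < p ∧ p < 1 ∧
        Measurable π ∧
        (∀ᵐ J ∂(couplingLaw d), IsGibbs β J (π J : Measure (Site d → Bool)) ∧
          (π J : Measure (Site d → Bool)).map neg = π J) ∧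
        (IsMetastate β ((couplingLaw d).map fun J => (J, π J)) ∧
          ∀ κ : Measure (Pair d), IsMetastate β κ →
            κ = (couplingLaw d).map fun J => (J, π J)) ∧
        (∀ (Λ : ℕ → Finset (Site d)) (Ω : ℕ → Coupling d → Site d → Bool),
          (∀ n, box d n ⊆ Λ n ∧ Measurable (Ω n) ∧ Indep (Λ n) (Ω n)) →
          ∀ᵐ J ∂(couplingLaw d), ∀ (A : Finset (Site d)) (f : (Site d → Bool) → ℝ),
            LocalOn A f → ∃ K : ℝ, ∀ n,
              |gE β J (Λ n) (Ω n J) f - ∫ σ, f σ ∂(π J : Measure (Site d → Bool))| ≤ K * p ^ n) ∧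
        (∀ x y : Site d, ∫ J, (∫ σ, sg (σ x) * sg (σ y) ∂(π J : Measure (Site d → Bool))) ^ 2
          ∂(couplingLaw d) ≤ (cSaw d (dist1 x y) : ℝ) * Real.tanh β ^ (2 * dist1 x y))) ∧
    ((2 * (d : ℝ) - 1) * Real.tanh β ^ 2 < 1 →
      ∃ N, 1 ≤ N ∧ (cSaw d N : ℝ) * Real.tanh β ^ (2 * N) < 1) := by
  refine ⟨fun Λ Ω hΩ hI x y hy => cov_bound β hβ Λ Ω hΩ hI x y hy,
    fun κ hκ x y => cov_meta hβ hκ x y, ?_, crit_of_degree β⟩
  rintro ⟨N, hN, h⟩
  obtain ⟨K, q, hK, hq0, hq1, hs⟩ := saw_decay β N hN h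
  have hp0 : 0 < √q := Real.sqrt_pos.mpr hq0
  have hp1 : √q < 1 := by
    rw [Real.sqrt_lt' one_pos, one_pow]
    exact hq1
  have hD : Dec d β K (√q ^ 2) := by
    rw [Real.sq_sqrt hq0.le]
    exact ⟨hβ, hK, hq0, hq1, hs⟩
  obtain ⟨π, hm, h1, h2, h3, h4, h5⟩ := full hp0 hp1 hD
  exact ⟨√q, π, hp0, hp1, hm, h1, ⟨h4, h5⟩, h3, h2⟩

end Pool.Agent.Results.MP_81d17b_pr.WeakUniqueness
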